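import Pool.Agent.Helper13.JS.St

/-!
# Project JS, module EF: one thin scale
-/

set_option autoImplicit false

namespace Pool.Agent.Helper41.JS

open Finset ArithmeticFunction Pool.Agent.Helper13.JS

theorem hEF (hEB : StEB) (hER : StER) : StEF := by
  obtain ⟨η, ε₀, c₀, w₀, hη0, hη1, hε0, hε1, hc0, hw0, hB⟩ := hEB
  refine ⟨η, ε₀, hη0, hη1, hε0, ?_⟩
  intro τ hτ0 hτ1
  have hA : 1 ≤ 1 / τ := by rw [le_div_iff₀ hτ0]; linarith
  obtain ⟨c, w₁, hc, hw1, hR⟩ := hER η (1 / τ) c₀ hη0 hη1 hA hc0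
  have hW : (2 : ℝ) ≤ max w₀ w₁ := le_max_of_le_left hw0
  refine ⟨c, max 2 ((max w₀ w₁) ^ (1 / τ)), hc, le_max_left _ _, ?_⟩
  intro E N w hE hN hNw hwN hms
  have hN0 : (0 : ℝ) ≤ N := Nat.cast_nonneg N
  have h1 : (max w₀ w₁) ^ (1 / τ) ≤ N := (le_max_right _ _).trans hN
  have h2 : max w₀ w₁ ≤ w := by
    have h3 : ((max w₀ w₁) ^ (1 / τ)) ^ τ ≤ (N : ℝ) ^ τ :=
      Real.rpow_le_rpow (by positivity) h1 hτ0.le
    rw [← Real.rpow_mul (by linarith), one_div_mul_cancel hτ0.ne', Real.rpow_one] at h3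
    exact h3.trans hNw
  have hw0' : w₀ ≤ w := (le_max_left _ _).trans h2
  have hw1' : w₁ ≤ w := (le_max_right _ _).trans h2
  have hw2 : 1 ≤ w := by linarith
  refine hR E w hE hw1' (hms.trans hε1) (fun M hM1 hM2 => hB E w hE hw0' hms M hM1 hM2) N ?_ ?_
  · refine le_trans ?_ hwN
    calc w ^ (1 / 2 : ℝ) ≤ w ^ (1 : ℝ) := Real.rpow_le_rpow_of_exponent_le hw2 (by norm_num)
      _ = w := Real.rpow_one w
  · have h4 : ((N : ℝ) ^ τ) ^ (1 / τ) ≤ w ^ (1 / τ) :=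
      Real.rpow_le_rpow (Real.rpow_nonneg hN0 _) hNw (by positivity)
    rwa [← Real.rpow_mul hN0, mul_one_div_cancel hτ0.ne', Real.rpow_one] at h4

end Pool.Agent.Helper41.JS
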